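import Pool.Agent.H74.BRB.Stmts

set_option autoImplicit false

namespace Pool.BRB

open MeasureTheory Filter

theorem ONE (hW : WLKStmt) (hC : CYLStmt) (hU : UNIStmt) (hP : PRBStmt) : ONEStmt := by
  rintro ⟨M, o, d⟩ hm
  obtain ⟨k, hk⟩ := (hW _).1 hm
  simp only at hk
  have hsub : ∀ n, {A : ℕ → Dir | ¬ Solves A (M, o, d)} ⊆ {A : ℕ → Dir | ∀ j ≤ n, pos M o A j ≠ d} := by
    intro n A hA j _ hj
    exact hA ⟨j, hj⟩
  have hle : ∀ n : ℕ, 2 ≤ n → wordLaw {A : ℕ → Dir | ¬ Solves A (M, o, d)} ≤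
      ENNReal.ofReal (270 * k / Real.log n) := by
    intro n hn
    refine (measure_mono (hsub n)).trans ?_
    rw [(hC M o d n).2]
    exact ENNReal.ofReal_le_ofReal (hU M o d k n hk hn)
  have hlim : Tendsto (fun n : ℕ => ENNReal.ofReal (270 * k / Real.log n)) atTop (nhds 0) := by
    have h1 : Tendsto (fun n : ℕ => Real.log (n : ℝ)) atTop atTop :=
      Real.tendsto_log_atTop.comp tendsto_natCast_atTop_atTop
    have h2 : Tendsto (fun n : ℕ => (270 * (k : ℝ)) / Real.log (n : ℝ)) atTop (nhds 0) :=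
      h1.const_div_atTop _
    have h3 := ENNReal.tendsto_ofReal h2
    simpa using h3
  have hz : wordLaw {A : ℕ → Dir | ¬ Solves A (M, o, d)} ≤ 0 :=
    ge_of_tendsto hlim (eventually_atTop.2 ⟨2, hle⟩)
  rw [ae_iff]
  exact le_antisymm hz zero_le

end Pool.BRB
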