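import Pool.Agent.H74.BRB.Stmts

set_option autoImplicit false

namespace Pool.BRB

open MeasureTheory

theorem PRB : PRBStmt := by
  have h1 : IsProbabilityMeasure ((4 : ENNReal)⁻¹ • (Measure.count : Measure Dir)) := by
    constructor
    rw [Measure.smul_apply, Measure.count_univ, smul_eq_mul]
    have hc : ENat.card Dir = (4 : ENat) := by
      rw [ENat.card_eq_coe_fintype_card]
      rfl
    rw [hc]
    exact ENNReal.inv_mul_cancel (by norm_num) (by norm_num)
  refine ⟨h1, ?_⟩
  unfold wordLaw
  infer_instance

end Pool.BRB
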