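import Pool.Agent.H74.BRB.Stmts

set_option autoImplicit false

namespace Pool.BRB

theorem WLK : WLKStmt := by
  rintro ⟨M, o, d⟩
  constructor
  · intro h
    unfold IsMaze at h
    simp only at h
    induction h using Relation.ReflTransGen.head_induction_on with
    | refl => exact ⟨0, rfl⟩
    | head h1 _ ih =>
      obtain ⟨D, hD, rfl⟩ := h1
      obtain ⟨k, hk⟩ := ih
      exact ⟨k + 1, D, hD, hk⟩
  · rintro ⟨k, hk⟩
    unfold IsMaze
    simp only at hk ⊢
    induction k generalizing o with
    | zero =>
      have : o = d := hk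
      subst this
      exact Relation.ReflTransGen.refl
    | succ k ih =>
      obtain ⟨D, hD, hk⟩ := hk
      exact Relation.ReflTransGen.head ⟨D, hD, rfl⟩ (ih _ hk)

end Pool.BRB
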